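import Pool.Agent.W29.RT.LOW4

/-!
# Project FK, part LOWF: there are many curves with full rational 2-torsion
-/

set_option autoImplicit false

namespace Pool.Agent.W672.FK

open Finset Pool.Agent.W307.RT Pool.Agent.W29.RT WeierstrassCurve

lemma hasT2 {A B : ℤ} {a b : ℚ} (hA : (A : ℚ) = -3 * (a ^ 2 - a * b + b ^ 2))
    (hB : (B : ℚ) = (a + b) * (2 * b - a) * (2 * a - b))
    (ha : a ≠ 0) (hb : b ≠ 0) (hab' : a - b ≠ 0) : HasT 2 (Sh A B) := by
  have hP : (Sh A B).toAffine.Nonsingular (-(a + b)) 0 := by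
    apply nons _ (Or.inr _)
    · rw [hA, hB]; ring
    · rw [hA]
      have : 3 * (-(a + b)) ^ 2 + -3 * (a ^ 2 - a * b + b ^ 2) = 9 * a * b := by ring
      rw [this]
      exact mul_ne_zero (mul_ne_zero (by norm_num) ha) hb
  have hQ : (Sh A B).toAffine.Nonsingular (2 * b - a) 0 := by
    apply nons _ (Or.inr _)
    · rw [hA, hB]; ring
    · rw [hA]
      have : 3 * (2 * b - a) ^ 2 + -3 * (a ^ 2 - a * b + b ^ 2) = -9 * b * (a - b) := by ring
      rw [this]
      exact mul_ne_zero (mul_ne_zero (by norm_num) hb) hab'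
  set P : (Sh A B).toAffine.Point := .some _ _ hP with hPd
  set Q : (Sh A B).toAffine.Point := .some _ _ hQ with hQd
  have hPP : P + P = 0 := by
    rw [hPd]
    apply Affine.Point.add_self_of_Y_eq
    rw [neg_y]; simp
  have hQQ : Q + Q = 0 := by
    rw [hQd]
    apply Affine.Point.add_self_of_Y_eq
    rw [neg_y]; simp
  have hP0 : P ≠ 0 := Affine.Point.some_ne_zero hP
  have hQ0 : Q ≠ 0 := Affine.Point.some_ne_zero hQ
  have hPQ : P ≠ Q := by
    rw [hPd, hQd, Ne, Affine.Point.some.injEq]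
    rintro ⟨h, -⟩
    apply hb
    linarith
  have hoP : addOrderOf P = 2 := by
    apply addOrderOf_eq_prime
    · rw [two_nsmul, hPP]
    · exact hP0
  have hoQ : addOrderOf Q = 2 := by
    apply addOrderOf_eq_prime
    · rw [two_nsmul, hQQ]
    · exact hQ0
  refine ⟨P, Q, hoP, hoQ, ?_⟩
  intro hmem
  obtain ⟨k, hk⟩ := AddSubgroup.mem_zmultiples_iff.1 hmem
  rcases Int.even_or_odd k with ⟨i, hi⟩ | ⟨i, hi⟩
  · apply hQ0
    rw [← hk, hi, ← two_mul, mul_comm, mul_zsmul, two_zsmul, hPP, zsmul_zero]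
  · apply hPQ
    rw [← hk, hi, add_zsmul, one_zsmul, mul_comm, mul_zsmul, two_zsmul, hPP, zsmul_zero,
      zero_add]

/-- the coefficients -/
def cg (t : ℕ × ℕ) : ℤ × ℤ :=
  (-3 * ((t.1 : ℤ) ^ 2 - (t.1 : ℤ) * (t.2 : ℤ) + (t.2 : ℤ) ^ 2),
    ((t.1 : ℤ) + (t.2 : ℤ)) * (2 * (t.2 : ℤ) - (t.1 : ℤ)) * (2 * (t.1 : ℤ) - (t.2 : ℤ)))

lemma minim2 {a b : ℤ} (h : IsCoprime a b) {p : ℕ} (hp : p.Prime)
    (h1 : (p : ℤ) ^ 4 ∣ -3 * (a ^ 2 - a * b + b ^ 2))
    (h2 : (p : ℤ) ^ 6 ∣ (a + b) * (2 * b - a) * (2 * a - b)) :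
    False := by
  have hpI : Prime (p : ℤ) := Nat.prime_iff_prime_int.1 hp
  have hnot : ¬ ((p : ℤ) ∣ a ∧ (p : ℤ) ∣ b) := by
    rintro ⟨ha, hb⟩
    exact hpI.not_isUnit (h.isUnit_of_dvd' ha hb)
  by_cases h3 : p = 3
  · subst h3
    have e1 : (27 : ℤ) ∣ a ^ 2 - a * b + b ^ 2 := by
      obtain ⟨c, hc⟩ := h1
      push_cast at hc
      exact ⟨-c, by linarith⟩
    have hp3 : Prime (3 : ℤ) := by exact_mod_cast hpI
    have e2 : (3 : ℤ) ∣ (a + b) ^ 2 := by
      have : (a + b) ^ 2 = (a ^ 2 - a * b + b ^ 2) + 3 * (a * b) := by ring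
      rw [this]
      exact dvd_add ((by norm_num : (3 : ℤ) ∣ 27).trans e1) (dvd_mul_right _ _)
    have e3 : (3 : ℤ) ∣ a + b := hp3.dvd_of_dvd_pow e2
    have e4 : (9 : ℤ) ∣ (a + b) ^ 2 := by
      have := mul_dvd_mul e3 e3
      rw [pow_two]
      exact (by norm_num : (9 : ℤ) = 3 * 3) ▸ this
    have e5 : (9 : ℤ) ∣ 3 * (a * b) := by
      have : 3 * (a * b) = (a + b) ^ 2 - (a ^ 2 - a * b + b ^ 2) := by ring
      rw [this]
      exact dvd_sub e4 ((by norm_num : (9 : ℤ) ∣ 27).trans e1)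
    have e6 : (3 : ℤ) ∣ a * b := by
      obtain ⟨c, hc⟩ := e5
      exact ⟨c, by linarith⟩
    apply hnot
    push_cast
    rcases hp3.dvd_or_dvd e6 with h | h
    · exact ⟨h, (dvd_add_right h).1 e3⟩
    · exact ⟨(dvd_add_left h).1 e3, h⟩
  · have hp3 : ¬ (p : ℤ) ∣ 3 := by
      intro hd
      have : p ∣ 3 := by exact_mod_cast hd
      exact h3 ((Nat.prime_dvd_prime_iff_eq hp Nat.prime_three).1 this)
    have e1 : (p : ℤ) ∣ a ^ 2 - a * b + b ^ 2 := by
      have : (p : ℤ) ∣ -3 * (a ^ 2 - a * b + b ^ 2) :=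
        (dvd_pow_self _ (by norm_num)).trans h1
      rcases hpI.dvd_or_dvd this with h | h
      · exact absurd ((dvd_neg.1 h)) hp3
      · exact h
    have e2 : (p : ℤ) ∣ (a + b) * (2 * b - a) * (2 * a - b) :=
      (dvd_pow_self _ (by norm_num)).trans h2
    apply hnot
    rcases hpI.dvd_or_dvd e2 with e3 | e3
    · rcases hpI.dvd_or_dvd e3 with e4 | e4
      · have e5 : (p : ℤ) ∣ 3 * (a * b) := by
          have : 3 * (a * b) = (a + b) * (a + b) - (a ^ 2 - a * b + b ^ 2) := by ring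
          rw [this]
          exact dvd_sub (e4.mul_right _) e1
        rcases hpI.dvd_or_dvd e5 with h | h
        · exact absurd h hp3
        rcases hpI.dvd_or_dvd h with h | h
        · exact ⟨h, (dvd_add_right h).1 e4⟩
        · exact ⟨(dvd_add_left h).1 e4, h⟩
      · have e5 : (p : ℤ) ∣ 3 * b ^ 2 := by
          have : 3 * b ^ 2 = (a ^ 2 - a * b + b ^ 2) + (2 * b - a) * (a + b) := by ring
          rw [this]
          exact dvd_add e1 (e4.mul_right _)
        rcases hpI.dvd_or_dvd e5 with h | h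
        · exact absurd h hp3
        have h' := hpI.dvd_of_dvd_pow h
        exact ⟨(dvd_sub_right (h'.mul_left 2)).1 e4, h'⟩
    · have e5 : (p : ℤ) ∣ 3 * a ^ 2 := by
        have : 3 * a ^ 2 = (a ^ 2 - a * b + b ^ 2) + (2 * a - b) * (a + b) := by ring
        rw [this]
        exact dvd_add e1 (e3.mul_right _)
      rcases hpI.dvd_or_dvd e5 with h | h
      · exact absurd h hp3
      have h' := hpI.dvd_of_dvd_pow h
      exact ⟨h', (dvd_sub_right (h'.mul_left 2)).1 e3⟩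

lemma cg_inj {a b a' b' : ℤ} (hb : 1 ≤ b) (hab : b < a) (hb' : 1 ≤ b') (hab' : b' < a')
    (h1 : -3 * (a ^ 2 - a * b + b ^ 2) = -3 * (a' ^ 2 - a' * b' + b' ^ 2))
    (h2 : (a + b) * (2 * b - a) * (2 * a - b) = (a' + b') * (2 * b' - a') * (2 * a' - b')) :
    a = a' ∧ b = b' := by
  have H : ∀ x : ℤ, (x - (2 * a - b)) * (x - (2 * b - a)) * (x - (-(a + b))) =
      (x - (2 * a' - b')) * (x - (2 * b' - a')) * (x - (-(a' + b'))) := by
    intro x
    linear_combination x * h1 + h2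
  have t1 := top_root H (by linarith) (by linarith) (by linarith) (by linarith)
  have H2 : ∀ x : ℤ, (x - (a + b)) * (x - (-(2 * b - a))) * (x - (-(2 * a - b))) =
      (x - (a' + b')) * (x - (-(2 * b' - a'))) * (x - (-(2 * a' - b'))) := by
    intro x
    have := H (-x)
    linear_combination (-1) * this
  have t2 := top_root H2 (by linarith) (by linarith) (by linarith) (by linarith)
  exact ⟨by linarith, by linarith⟩

theorem mem_cv2 {T H a b : ℕ} (hb : 1 ≤ b) (hab : b < a) (haT : a ≤ T) (hc : a.Coprime b)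
    (hH : 2000000 * T ^ 6 ≤ H) : cg (a, b) ∈ Cv 2 H := by
  have hcI : IsCoprime (a : ℤ) (b : ℤ) := Nat.isCoprime_iff_coprime.2 hc
  have hbI : (1 : ℤ) ≤ b := by exact_mod_cast hb
  have habI : (b : ℤ) < a := by exact_mod_cast hab
  have haTI : (a : ℤ) ≤ T := by exact_mod_cast haT
  have hHI : 2000000 * (T : ℤ) ^ 6 ≤ H := by exact_mod_cast hH
  set x : ℤ := (a : ℤ) with hx
  set y : ℤ := (b : ℤ) with hy
  set S : ℤ := (T : ℤ) with hS
  have hcf1 : (cg (a, b)).1 = -3 * (x ^ 2 - x * y + y ^ 2) := by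
    simp only [cg, hx, hy]
  have hcf2 : (cg (a, b)).2 = (x + y) * (2 * y - x) * (2 * x - y) := by
    simp only [cg, hx, hy]
  have hS0 : 0 < S := by linarith
  have hA : |(cg (a, b)).1| ≤ 3 * S ^ 2 := by
    rw [hcf1, abs_le]
    constructor
    · nlinarith
    · nlinarith
  have hB : |(cg (a, b)).2| ≤ 4 * S ^ 3 := by
    rw [hcf2, abs_mul, abs_mul]
    have e1 : |x + y| ≤ 2 * S := by rw [abs_le]; constructor <;> linarith
    have e2 : |2 * y - x| ≤ S := by rw [abs_le]; constructor <;> linarith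
    have e3 : |2 * x - y| ≤ 2 * S := by rw [abs_le]; constructor <;> linarith
    calc |x + y| * |2 * y - x| * |2 * x - y|
        ≤ (2 * S) * S * (2 * S) := by gcongr
      _ = 4 * S ^ 3 := by ring
  have hS6 : 0 ≤ S ^ 6 := by positivity
  have hA3 : 4 * |(cg (a, b)).1| ^ 3 ≤ H := by
    calc 4 * |(cg (a, b)).1| ^ 3 ≤ 4 * (3 * S ^ 2) ^ 3 := by gcongr
      _ = 108 * S ^ 6 := by ring
      _ ≤ H := by linarith
  have hB2 : 27 * (cg (a, b)).2 ^ 2 ≤ H := by
    calc 27 * (cg (a, b)).2 ^ 2 = 27 * |(cg (a, b)).2| ^ 2 := by rw [sq_abs]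
      _ ≤ 27 * (4 * S ^ 3) ^ 2 := by gcongr
      _ = 432 * S ^ 6 := by ring
      _ ≤ H := by linarith
  unfold Cv
  simp only [mem_filter, mem_product, mem_Icc]
  have a1 := abs_le_cube (cg (a, b)).1
  have a2 := abs_le_sq (cg (a, b)).2
  have a3 := neg_abs_le (cg (a, b)).1
  have a4 := le_abs_self (cg (a, b)).1
  have a5 := neg_abs_le (cg (a, b)).2
  have a6 := le_abs_self (cg (a, b)).2
  have a7 : 0 ≤ |(cg (a, b)).1| ^ 3 := by positivity
  have a8 : 0 ≤ (cg (a, b)).2 ^ 2 := by positivity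
  refine ⟨⟨⟨by linarith, by linarith⟩, ⟨by linarith, by linarith⟩⟩, ?_, hA3, hB2, ?_, ?_⟩
  · rw [hcf1, hcf2]
    have : 4 * (-3 * (x ^ 2 - x * y + y ^ 2)) ^ 3 +
        27 * ((x + y) * (2 * y - x) * (2 * x - y)) ^ 2 =
        -(729 * (x ^ 2 * y ^ 2 * (x - y) ^ 2)) := by ring
    rw [this]
    have h3 : x - y ≠ 0 := by intro h; linarith
    have hx0 : x ≠ 0 := by intro h; linarith
    have hy0 : y ≠ 0 := by intro h; linarith
    have : 0 < x ^ 2 * y ^ 2 * (x - y) ^ 2 := by positivity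
    intro h
    linarith
  · intro p hp hh
    exact minim2 hcI hp hh.1 hh.2
  · apply hasT2 (a := (a : ℚ)) (b := (b : ℚ))
    · simp only [cg]; push_cast; ring
    · simp only [cg]; push_cast; ring
    · have : 0 < a := by omega
      positivity
    · positivity
    · have : (b : ℚ) < a := by exact_mod_cast hab
      intro h
      linarith

theorem lowf : Pool.Agent.W307.RT.LOW 2 6 := by
  refine ⟨1 / 24, 2000000, 5, by norm_num, fun T H hT hH => ?_⟩
  have h1 : (SS T).card ≤ (Cv 2 H).card := by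
    apply card_le_card_of_injOn (fun t => cg (t.1, t.2))
    · intro t ht
      have ht' : t ∈ SS T := ht
      unfold SS at ht'
      rw [mem_sigma, mem_Icc, mem_filter, mem_range] at ht'
      obtain ⟨⟨k1, k2⟩, k3, k4⟩ := ht'
      have hb : 1 ≤ t.2 := by
        rcases Nat.eq_zero_or_pos t.2 with h | h
        · rw [h, Nat.coprime_zero_right] at k4; omega
        · exact h
      exact mem_cv2 hb k3 k2 k4 hH
    · intro t ht t' ht' h
      have ht1 : t ∈ SS T := ht
      have ht1' : t' ∈ SS T := ht'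
      unfold SS at ht1 ht1'
      rw [mem_sigma, mem_Icc, mem_filter, mem_range] at ht1 ht1'
      obtain ⟨⟨k1, k2⟩, k3, k4⟩ := ht1
      obtain ⟨⟨k1', k2'⟩, k3', k4'⟩ := ht1'
      have hb : 1 ≤ t.2 := by
        rcases Nat.eq_zero_or_pos t.2 with h | h
        · rw [h, Nat.coprime_zero_right] at k4; omega
        · exact h
      have hb' : 1 ≤ t'.2 := by
        rcases Nat.eq_zero_or_pos t'.2 with h | h
        · rw [h, Nat.coprime_zero_right] at k4'; omega
        · exact h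
      have h' : cg (t.1, t.2) = cg (t'.1, t'.2) := h
      simp only [cg, Prod.mk.injEq] at h'
      obtain ⟨e1, e2⟩ := cg_inj (by exact_mod_cast hb) (by exact_mod_cast k3)
        (by exact_mod_cast hb') (by exact_mod_cast k3') h'.1 h'.2
      have e1' : t.1 = t'.1 := by exact_mod_cast e1
      have e2' : t.2 = t'.2 := by exact_mod_cast e2
      exact Sigma.ext e1' (heq_of_eq e2')
  have h2 := card_SS T hT
  have h3 : (T : ℝ) ^ 2 ≤ 24 * ((SS T).card : ℝ) := by exact_mod_cast h2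
  have h4 : ((SS T).card : ℝ) ≤ ((Cv 2 H).card : ℝ) := by exact_mod_cast h1
  linarith

end Pool.Agent.W672.FK
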